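import Mathlib
import Pool.Agent.W602.GT.SpDefs
import Pool.Agent.N750.Noch

/-!
Project RA (helper3): rationality of varieties over hyperplane arrangements (row MP_1dc56d_ag).
Definitions and statements of the packages, with proofs in the docstrings.
-/

set_option autoImplicit false

namespace Pool.Agent.P8H3.RA

open Pool.Agent.W602.GT (coords)

/-- The varieties with function field `K` are uniruled: there are a field `F` over `k` (the function
field of the base of a family of rational curves) and an embedding of `K` into `F(s)` whose image is
not in `F`. -/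
def Uniruled (k K : Type) [Field k] [Field K] [Algebra k K] : Prop :=
  ∃ (F : Type) (_ : Field F) (_ : Algebra k F) (φ : K →ₐ[k] RatFunc F) (y : K),
    ∀ c : F, φ y ≠ RatFunc.C c

/-- The varieties with function field `K` are unirational. -/
def Unirational (k K : Type) [Field k] [Field K] [Algebra k K] : Prop :=
  ∃ m : ℕ, Nonempty (K →ₐ[k] FractionRing (MvPolynomial (Fin m) k))

/-- The value of a linear form with coefficients in `k` at a vector over `K`. -/
def lfv {k K : Type} [Field k] [Field K] [Algebra k K] {n : ℕ} (b : Fin n → k) (f : Fin n → K) :
    K := ∑ i, algebraMap k K (b i) * f i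

/-- **URU** (120 lines, Mathlib only). A unirational variety of positive dimension is uniruled.
Induction on `m`: for every `K` and every `φ : K →ₐ[k] FractionRing (MvPolynomial (Fin m) k)` the
conclusion holds. `m = 0`: `MvPolynomial (Fin 0) k` is `k` (MvPolynomial.isEmptyAlgEquiv), so every
element of the fraction field is a constant. Step: `MvPolynomial.finSuccEquiv k m` gives
`FractionRing (MvPolynomial (Fin (m + 1)) k) ≃ₐ[k] RatFunc F`, `F = FractionRing (MvPolynomial (Fin m) k)`
(`RatFunc F` is a fraction field of `(MvPolynomial (Fin m) k)[X]`: instance in Mathlib for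
`[IsFractionRing R K]`, or use IsFractionRing.ringEquivOfRingEquiv and Polynomial.map). If some `φ y` is not
in `F` then `K` is uniruled by definition; otherwise `φ` factors through `F` (RatFunc.C is injective)
and the induction hypothesis applies. -/
def S_URU : Prop := ∀ (k K : Type) [Field k] [Field K] [Algebra k K], Unirational k K →
  (∀ y : K, ∃ c : k, y = algebraMap k K c) ∨ Uniruled k K

/-- **DES** (60 lines, Mathlib only). Extension of constants: `ψ` is RatFunc.map (mapRingHom) of
Polynomial.mapRingHom (algebraMap F G). If `f = P / Q`, `Q` monic (RatFunc.num, RatFunc.denom,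
RatFunc.monic_denom) and `ψ f = C b` then `P` mapped is `b` times `Q` mapped; the coefficient at `natDegree Q`
shows that `b` is the image of `c = P.coeff (natDegree Q)`, and `P = C c * Q` by injectivity. -/
def S_DES : Prop := ∀ (F G : Type) [Field F] [Field G] [Algebra F G],
  ∃ ψ : RatFunc F →+* RatFunc G, (∀ c, ψ (RatFunc.C c) = RatFunc.C (algebraMap F G c)) ∧
    ∀ f b, ψ f = RatFunc.C b → ∃ c, f = RatFunc.C c

/-- **RKX** (80 lines). Rank and extension of the base field. If only the zero vector over `k` is
killed by the `M j`, `j ∈ A`, then the `M j` span `k ^ n` (dual), so the unit vectors are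
combinations of them over `k`, hence over `G` of their images, and the rank over `G` is `n`. -/
def S_RKX : Prop := ∀ (k G : Type) [Field k] [Field G] [Algebra k G] (n q : ℕ)
  (M : Fin q → Fin n → k) (A : Finset (Fin q)),
  (∀ v : Fin n → k, (∀ j ∈ A, ∑ l, M j l * v l = 0) → v = 0) →
  Pool.Agent.N750.rk G (fun j l => algebraMap k G (M j l)) A = n

/-- **SUB** (100 lines, Mathlib only). A point `x` over `K` which is killed by forms `M i` over `k` of
rank at least `n + 1 - c` is a combination over `K` of a basis over `k` of the space
`W = {v | ∀ i, ∑ l, M i l * v l = 0}`, of dimension `p + 1 ≤ c` (dimension formula; the solutions over `K`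
of a linear system over `k` are spanned by those over `k`; proof for instance: choose a basis of `K`
over `k`, or complete the basis of `W` to a basis of `k ^ (n + 1)`, write `x` in it, and use that the
forms `M i` restricted to the complement are injective, with a left inverse matrix over `k`). As `x ≠ 0`
the space `W` is not zero. -/
def S_SUB : Prop := ∀ (k K : Type) [Field k] [Field K] [Algebra k K] (n r c : ℕ)
  (M : Fin r → Fin (n + 1) → k) (x : Fin (n + 1) → K), x ≠ 0 →
  n + 1 ≤ Module.finrank k (Submodule.span k (Set.range M)) + c → (∀ i, lfv (M i) x = 0) →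
  ∃ (p : ℕ) (B : Fin (p + 1) → Fin (n + 1) → k) (f : Fin (p + 1) → K), p + 1 ≤ c ∧
    LinearIndependent k B ∧ (∀ i j, ∑ l, M i l * B j l = 0) ∧
    ∀ l, x l = ∑ j, algebraMap k K (B j l) * f j

/-- **DIM** (120 lines). Let `x = ∑ B j * f j` with `p + 1` vectors `B j` over `k`. The field
`coords k x` of the ratios of the coordinates is generated by (is contained in) the field of the `p`
ratios `f j / f j₀` (`f j₀ ≠ 0`), so its transcendence degree is at most `p`. If `coords k x = ⊤` and the
transcendence degree of `K` is `d ≥ p`, then `d = p` and the `p` ratios are algebraically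
independent and generate `K`: `K` is purely transcendental (`coords k x ≤ adjoin k {f j / f j₀}`; a
generating set of size `p = trdeg` is a transcendence basis; then
AlgebraicIndependent.aevalEquivField or similar). -/
def S_DIM : Prop := ∀ (k K : Type) [Field k] [Field K] [Algebra k K] (n p d : ℕ)
  (B : Fin (p + 1) → Fin (n + 1) → k) (f : Fin (p + 1) → K) (x : Fin (n + 1) → K), x ≠ 0 →
  (∀ l, x l = ∑ j, algebraMap k K (B j l) * f j) → Algebra.trdeg k K = d →
  (Algebra.IsAlgebraic (coords k x) K → d ≤ p) ∧
  (coords k x = ⊤ → p ≤ d → d = p ∧
    Nonempty (K ≃ₐ[k] FractionRing (MvPolynomial (Fin d) k)))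

end Pool.Agent.P8H3.RA
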