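import Pool.Agent.P8H3.RA.Stm
import Pool.Agent.P8H16.NK.Afi
import Pool.Agent.P8H53.NK.Aco
import Pool.Agent.P8H45.NK.Aow
import Pool.Agent.P8H71.NK.Asp
import Pool.Agent.P8H52.NK.Wtsf
import Pool.Agent.W619.PQ.Curve

/-!
# Rational curves: the core
-/

set_option autoImplicit false

namespace Pool.Agent.P8H3.RA

open FF Pool.Agent.W603.LV Pool.Agent.W603.PV Pool.Agent.P8H50.NK
open scoped IntermediateField

theorem s_afi : S_AFI :=
  Pool.Agent.P8H16.NK.afi (Pool.Agent.P8H53.NK.aco Pool.Agent.P8H45.NK.aow) Pool.Agent.P8H71.NK.asp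
    Pool.Agent.P8H52.NK.wtsf Pool.Agent.P8H16.NK.resf

theorem isFF_rat (G : Type) [Field G] : IsFF G (RatFunc G) := by
  have htop : G⟮(RatFunc.X : RatFunc G)⟯ = ⊤ := RatFunc.adjoin_X
  refine IsFF.of_finite RatFunc.transcendental_X ?_
  rw [htop]
  exact Module.Finite.of_surjective
    (Algebra.linearMap (⊤ : IntermediateField G (RatFunc G)) (RatFunc G))
    (fun z => ⟨⟨z, trivial⟩, rfl⟩)

theorem ord_prod {k K : Type} [Field k] [Field K] [Algebra k K] (P : Place k K) {ι : Type}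
    (s : Finset ι) (f : ι → K) (hf : ∀ i ∈ s, f i ≠ 0) :
    P.ord (∏ i ∈ s, f i) = ∑ i ∈ s, P.ord (f i) := by
  classical
  induction s using Finset.induction_on with
  | empty => rw [Finset.prod_empty, Finset.sum_empty]; exact P.ord_one
  | insert a s ha ih =>
    rw [Finset.prod_insert ha, Finset.sum_insert ha, P.ord_mul (hf a (Finset.mem_insert_self _ _))
      (Finset.prod_ne_zero_iff.2 fun i hi => hf i (Finset.mem_insert_of_mem hi)),
      ih fun i hi => hf i (Finset.mem_insert_of_mem hi)]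

/-- the conditions on the numbers -/
structure Num (n q t m : ℕ) (e : Fin q → ℕ) : Prop where
  pos : ∀ j, 1 ≤ e j
  dvd : m ∣ ∑ j, e j
  dim : n ≤ t ∧ 2 * t < q
  small : ∀ p, 1 ≤ p → p ≤ n → p * (2 * t + 1 - p) * ∑ j, e j < 2 * m * (q + p - (2 * t + 1))

theorem Num.m_pos {n q t m : ℕ} {e : Fin q → ℕ} (h : Num n q t m e) : 1 ≤ m := by
  rcases Nat.eq_zero_or_pos m with h0 | h0
  · exfalso
    have h1 := h.dvd
    rw [h0, zero_dvd_iff, Finset.sum_eq_zero_iff] at h1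
    have hq : 0 < q := by have := h.dim; omega
    have h2 := h1 ⟨0, hq⟩ (Finset.mem_univ _)
    have h3 := h.pos ⟨0, hq⟩
    omega
  · exact h0

/-- the number `ρ` -/
theorem Num.rho {n q t m : ℕ} {e : Fin q → ℕ} (h : Num n q t m e) :
    ∃ ρ : ℝ, 0 ≤ ρ ∧ ρ < m ∧ ∀ p : ℕ, 2 ≤ p → p ≤ n + 1 → ((p : ℝ) - 1) * (2 * t - p + 2) *
      ∑ j, (e j : ℝ) ≤ 2 * ρ * (q - (2 * t - p + 2)) := by
  have hm := h.m_pos
  have hq : 0 < q := by have := h.dim; omega
  have hm' : (1 : ℝ) ≤ m := by exact_mod_cast hm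
  have hS : (1 : ℝ) ≤ (q : ℝ) + n := by
    have : (1 : ℝ) ≤ q := by exact_mod_cast hq
    have h2 : (0 : ℝ) ≤ n := Nat.cast_nonneg n
    linarith
  refine ⟨m - 1 / (2 * ((q : ℝ) + n)), ?_, ?_, ?_⟩
  · have h1 : 1 / (2 * ((q : ℝ) + n)) ≤ 1 := by
      rw [div_le_one (by positivity)]
      linarith
    linarith
  · have h1 : 0 < 1 / (2 * ((q : ℝ) + n)) := by positivity
    linarith
  · intro p hp hpn
    obtain ⟨p', rfl⟩ : ∃ p', p = p' + 1 := ⟨p - 1, by omega⟩
    have h1 := h.small p' (by omega) (by omega)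
    have hd := h.dim
    obtain ⟨u, hu⟩ : ∃ u, 2 * t + 1 = p' + u := ⟨2 * t + 1 - p', by omega⟩
    obtain ⟨s, hs⟩ : ∃ s, q + p' = 2 * t + 1 + s := ⟨q + p' - (2 * t + 1), by omega⟩
    rw [show 2 * t + 1 - p' = u by omega, show q + p' - (2 * t + 1) = s by omega] at h1
    have h2 : ((p' * u * (∑ j, e j) + 1 : ℕ) : ℝ) ≤ ((2 * m * s : ℕ) : ℝ) := by
      exact_mod_cast h1
    push_cast at h2
    have hu' : (2 : ℝ) * t + 1 = p' + u := by exact_mod_cast hu
    have hs' : (q : ℝ) + p' = 2 * t + 1 + s := by exact_mod_cast hs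
    have h3 : ((((p' + 1 : ℕ) : ℝ)) - 1) * (2 * t - ((p' + 1 : ℕ) : ℝ) + 2) * ∑ j, (e j : ℝ) =
        p' * u * ∑ j, (e j : ℝ) := by
      push_cast
      rw [show (2 : ℝ) * t - (p' + 1) + 2 = u by linarith]
      ring
    have h4 : (q : ℝ) - (2 * t - ((p' + 1 : ℕ) : ℝ) + 2) = s := by
      push_cast
      linarith
    rw [h3, h4]
    have hsS : (s : ℝ) ≤ (q : ℝ) + n := by
      have : s ≤ q + n := by omega
      exact_mod_cast this
    have h5 : (s : ℝ) / ((q : ℝ) + n) ≤ 1 := by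
      rw [div_le_one (by positivity)]
      exact hsS
    have h6 : 2 * ((m : ℝ) - 1 / (2 * ((q : ℝ) + n))) * s = 2 * m * s - s / ((q : ℝ) + n) := by
      field_simp
    rw [h6]
    linarith

/-- the core: rational curves -/
theorem core {n q t m : ℕ} {e : Fin q → ℕ} (h : Num n q t m e) (G : Type) [Field G] [CharZero G]
    [IsAlgClosed G] (ℓ : Fin q → Fin (n + 1) → G)
    (hrk : ∀ A : Finset (Fin q), A.card = t + 1 → Pool.Agent.N750.rk G ℓ A = n + 1)
    (x : Fin (n + 1) → RatFunc G) (hx : x ≠ 0) (w : RatFunc G)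
    (hw : w ^ m = ∏ j, lk (ℓ j) x ^ e j) :
    w = 0 ∨ ∃ (c : RatFunc G) (a : Fin (n + 1) → G), ∀ l, x l = c * algebraMap G (RatFunc G) (a l) := by
  by_cases hw0 : w = 0
  · exact Or.inl hw0
  right
  have hFF : IsFF G (RatFunc G) := isFF_rat G
  have : CharZero (RatFunc G) :=
    charZero_of_injective_algebraMap (algebraMap G (RatFunc G)).injective
  have hne : ∀ j, lk (ℓ j) x ≠ 0 := by
    intro j hj
    have h1 : w ^ m = 0 := by
      rw [hw]
      exact Finset.prod_eq_zero (Finset.mem_univ j) (by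
        rw [hj, zero_pow (by have := h.pos j; omega)])
    exact hw0 (pow_eq_zero_iff (by have := h.m_pos; omega) |>.1 h1)
  obtain ⟨ρ, hρ0, hρm, hρ⟩ := h.rho
  obtain ⟨C, hC, hmain⟩ := s_afi 1 (fun _ => n) (fun _ => q) (fun _ => t) (fun _ => e) m
    (fun _ => ρ) (fun _ => h.dim) (fun _ => h.pos) (fun _ => ⟨hρ0, hρ⟩) (by
      rw [Finset.sum_const, Finset.card_univ, Fintype.card_fin, one_smul]
      exact hρm)
  have hmult : ∀ P : Place G (RatFunc G),
      (∑ i : Fin 1, ∑ j, (e j : ℤ) * (P.ord (lk (ℓ j) x) - pord P x) = 0) ∨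
      (m : ℤ) ≤ ∑ i : Fin 1, ∑ j, (e j : ℤ) * (P.ord (lk (ℓ j) x) - pord P x) := by
    intro P
    rw [Finset.univ_unique, Finset.sum_singleton]
    have h1 : (m : ℤ) * P.ord w = ∑ j, (e j : ℤ) * P.ord (lk (ℓ j) x) := by
      rw [← P.ord_pow, hw, ord_prod P _ _ fun j _ => pow_ne_zero _ (hne j)]
      exact Finset.sum_congr rfl fun j _ => P.ord_pow _ _
    have h2 : ∑ j, (e j : ℤ) * (P.ord (lk (ℓ j) x) - pord P x) =
        m * P.ord w - (∑ j, (e j : ℤ)) * pord P x := by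
      rw [h1, Finset.sum_mul, ← Finset.sum_sub_distrib]
      exact Finset.sum_congr rfl fun j _ => by ring
    obtain ⟨δ, hδ⟩ := h.dvd
    have h3 : (∑ j, (e j : ℤ)) = m * δ := by exact_mod_cast congrArg (Nat.cast : ℕ → ℤ) hδ
    have h4 : 0 ≤ ∑ j, (e j : ℤ) * (P.ord (lk (ℓ j) x) - pord P x) := by
      refine Finset.sum_nonneg fun j _ => mul_nonneg (Int.natCast_nonneg _) ?_
      have h5 := Pool.Agent.P8H53.NK.ge_lk P x (ℓ j)
      rcases h5 with h5 | h5
      · exact absurd h5 (hne j)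
      · linarith
    rw [h2, h3] at h4 ⊢
    have h5 : (m : ℤ) * P.ord w - m * δ * pord P x = m * (P.ord w - δ * pord P x) := by ring
    rw [h5] at h4 ⊢
    have hm : (0 : ℤ) < m := by exact_mod_cast h.m_pos
    rcases lt_trichotomy (P.ord w - δ * pord P x) 0 with h6 | h6 | h6
    · exfalso
      have := mul_neg_of_pos_of_neg hm h6
      linarith
    · left
      rw [h6, mul_zero]
    · right
      nlinarith
  rcases hmain G (RatFunc G) (fun _ => ℓ) (fun _ => x) (fun _ A hA => hrk A hA) (fun _ => hx)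
      (fun _ j => hne j) hmult with h1 | h1
  · exfalso
    rw [Finset.univ_unique, Finset.sum_singleton,
      Pool.Agent.W619.PQ.canDeg_rational (x := (RatFunc.X : RatFunc G)) RatFunc.adjoin_X] at h1
    have hx' : ∃ j, x j ≠ 0 := Function.ne_iff.1 hx
    have h2 : 0 ≤ pht G x := Pool.Agent.P8H16.NK.pht_nonneg x hx'
    have h3 : (0 : ℝ) ≤ (pht G x : ℝ) := by exact_mod_cast h2
    push_cast at h1
    nlinarith
  · exact h1 0

end Pool.Agent.P8H3.RA
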