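import Pool.Agent.P8H3.RA.Stm

/-!
# Cyclic covers of projective space along hyperplane arrangements
-/

set_option autoImplicit false

namespace Pool.Agent.P8H3.RA

/-- `r` families of hyperplanes `∑ l, ℓ i j l * x l = 0`, `i < r`, `j < q i`, in projective `n`-space
over `k`, with multiplicities `e i j`, and numbers `m i`, `t i`. -/
structure Arr (k : Type) (n r : ℕ) where
  q : Fin r → ℕ
  t : Fin r → ℕ
  m : Fin r → ℕ
  ℓ : ∀ i, Fin (q i) → Fin (n + 1) → k
  e : ∀ i, Fin (q i) → ℕ

variable {k : Type} [Field k] {n r : ℕ}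

/-- The conditions: `e i j ≥ 1`; `m i` divides `∑ j, e i j`; any `t i + 1` of the hyperplanes of the
`i`-th family have no common point; `n ≤ t i`, `2 * t i < q i`; and, for `p = 1, …, n`,
`p * (2 * t i + 1 - p) * ∑ j, e i j < 2 * m i * (q i + p - (2 * t i + 1))`. -/
structure Arr.Good (D : Arr k n r) : Prop where
  pos : ∀ i j, 1 ≤ D.e i j
  dvd : ∀ i, D.m i ∣ ∑ j, D.e i j
  mult : ∀ i (S : Finset (Fin (D.q i))), S.card = D.t i + 1 → ∀ v : Fin (n + 1) → k,
    (∀ j ∈ S, ∑ l, D.ℓ i j l * v l = 0) → v = 0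
  dim : ∀ i, n ≤ D.t i ∧ 2 * D.t i < D.q i
  small : ∀ i p, 1 ≤ p → p ≤ n →
    p * (2 * D.t i + 1 - p) * ∑ j, D.e i j < 2 * D.m i * (D.q i + p - (2 * D.t i + 1))

/-- The weight `δ i = (∑ j, e i j) / m i` of the coordinate `w i`. -/
def Arr.wt (D : Arr k n r) (i : Fin r) : ℕ := (∑ j, D.e i j) / D.m i

/-- The values of the linear forms at the vector `x`. -/
def Arr.form {K : Type} [Field K] [Algebra k K] (D : Arr k n r) (i : Fin r) (j : Fin (D.q i))
    (x : Fin (n + 1) → K) : K := ∑ l, algebraMap k K (D.ℓ i j l) * x l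

/-- `(x, w)` are the homogeneous coordinates of a point over `K` of the variety
`X : w i ^ m i = ∏ j, ℓ i j (x) ^ e i j`, `i < r` (in a weighted projective space). -/
structure Arr.Point (D : Arr k n r) {K : Type} [Field K] [Algebra k K] (x : Fin (n + 1) → K)
    (w : Fin r → K) : Prop where
  ne : x ≠ 0
  eq : ∀ i, w i ^ D.m i = ∏ j, D.form i j x ^ D.e i j

/-- The field of the image of a point: it is generated by the quotients `x a / x b` and
`w i / x b ^ δ i`. -/
def Arr.residue (D : Arr k n r) {K : Type} [Field K] [Algebra k K] (x : Fin (n + 1) → K)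
    (w : Fin r → K) : IntermediateField k K :=
  IntermediateField.adjoin k ({z | ∃ a b, x b ≠ 0 ∧ z = x a / x b} ∪
    {z | ∃ i b, x b ≠ 0 ∧ z = w i / x b ^ D.wt i})

/-- Every intersection of `r` hyperplanes, one of each family, is contained in a linear subspace of
dimension `c - 1`. -/
def Arr.Codim (D : Arr k n r) (c : ℕ) : Prop :=
  ∀ σ : ∀ i, Fin (D.q i), n + 1 ≤ Module.finrank k (Submodule.span k
    (Set.range fun i => D.ℓ i (σ i))) + c

/-- The point `x` of projective `n`-space is constant. -/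
def Const (k : Type) [Field k] {K : Type} [Field K] [Algebra k K] (x : Fin (n + 1) → K) : Prop :=
  ∃ (c : K) (a : Fin (n + 1) → k), ∀ l, x l = c * algebraMap k K (a l)

end Pool.Agent.P8H3.RA
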