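import Pool.Agent.P8H3.RA.Ruled
import Pool.Agent.P8H22.RA.Uru
import Pool.Agent.P8H80.RA.Lin
import Pool.Agent.P8H5.RA.Dim

/-!
# Rationality of varieties over hyperplane arrangements
-/

set_option autoImplicit false

namespace Pool.Agent.P8H3.RA

open Pool.Agent.W602.GT (coords)

variable {k : Type} [Field k] {n r : ℕ}

theorem s_des : S_DES := Pool.Agent.P8H80.RA.des
theorem s_rkx : S_RKX := Pool.Agent.P8H80.RA.rkx
theorem s_sub : S_SUB := Pool.Agent.P8H80.RA.sub
theorem s_uru : S_URU := Pool.Agent.P8H22.RA.uru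
theorem s_dim : S_DIM := Pool.Agent.P8H5.RA.dim

/-- if the generators are mapped to constants then all elements are -/
theorem adj_in {K F : Type} [Field K] [Algebra k K] [Field F] [Algebra k F] (S : Set K)
    (φ : IntermediateField.adjoin k S →ₐ[k] RatFunc F)
    (h : ∀ s (hs : s ∈ S), ∃ c, φ ⟨s, IntermediateField.subset_adjoin k S hs⟩ = RatFunc.C c)
    (e : IntermediateField.adjoin k S) : ∃ c, φ e = RatFunc.C c := by
  obtain ⟨e, he⟩ := e
  induction he using IntermediateField.adjoin_induction with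
  | mem x hx => exact h x hx
  | algebraMap a => exact ⟨algebraMap k F a, by rw [← algMap_rat]; exact φ.commutes a⟩
  | add x y hx hy h1 h2 =>
    obtain ⟨a, ha⟩ := h1
    obtain ⟨b, hb⟩ := h2
    exact ⟨a + b, by rw [map_add, ← ha, ← hb, ← map_add]; rfl⟩
  | inv x hx h1 =>
    obtain ⟨a, ha⟩ := h1
    exact ⟨a⁻¹, by rw [map_inv₀, ← ha, ← map_inv₀]; rfl⟩
  | mul x y hx hy h1 h2 =>
    obtain ⟨a, ha⟩ := h1
    obtain ⟨b, hb⟩ := h2
    exact ⟨a * b, by rw [map_mul, ← ha, ← hb, ← map_mul]; rfl⟩

section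

variable {K : Type} [Field K] [Algebra k K] (D : Arr k n r)

theorem form_div (i : Fin r) (j : Fin (D.q i)) (x : Fin (n + 1) → K) (y : K) :
    D.form i j (fun l => x l / y) = D.form i j x / y := by
  unfold Arr.form
  rw [Finset.sum_div]
  exact Finset.sum_congr rfl fun l _ => by rw [mul_div_assoc]

theorem norm_eq (hD : D.Good) {x : Fin (n + 1) → K} {w : Fin r → K} (hP : D.Point x w)
    (b : Fin (n + 1)) (i : Fin r) :
    (w i / x b ^ D.wt i) ^ D.m i = ∏ j, D.form i j (fun l => x l / x b) ^ D.e i j := by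
  have h1 : ∀ j, D.form i j (fun l => x l / x b) ^ D.e i j =
      D.form i j x ^ D.e i j / x b ^ D.e i j := fun j => by rw [form_div, div_pow]
  simp only [h1]
  rw [Finset.prod_div_distrib, ← hP.eq, Finset.prod_pow_eq_pow_sum, div_pow, ← pow_mul]
  congr 2
  exact Nat.div_mul_cancel (hD.dvd i)

theorem mem_x (x : Fin (n + 1) → K) (w : Fin r → K) (a b : Fin (n + 1)) (hb : x b ≠ 0) :
    x a / x b ∈ D.residue x w :=
  IntermediateField.subset_adjoin k _ (Or.inl ⟨a, b, hb, rfl⟩)

theorem mem_w (x : Fin (n + 1) → K) (w : Fin r → K) (i : Fin r) (b : Fin (n + 1)) (hb : x b ≠ 0) :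
    w i / x b ^ D.wt i ∈ D.residue x w :=
  IntermediateField.subset_adjoin k _ (Or.inr ⟨i, b, hb, rfl⟩)

/-- if the image of a point is uniruled then all `w i` are zero -/
theorem zero_of_uniruled [CharZero k] (hD : D.Good) {x : Fin (n + 1) → K} {w : Fin r → K}
    (hP : D.Point x w) (hU : Uniruled k (D.residue x w)) : ∀ i, w i = 0 := by
  obtain ⟨F, _, _, φ, y, hy⟩ := hU
  obtain ⟨b, hb⟩ := Function.ne_iff.1 hP.ne
  have hb' : x b ≠ 0 := hb
  set X : Fin (n + 1) → RatFunc F := fun l => φ ⟨x l / x b, mem_x D x w l b hb'⟩ with hX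
  set W : Fin r → RatFunc F := fun i => φ ⟨w i / x b ^ D.wt i, mem_w D x w i b hb'⟩ with hW
  have hXb : X b = 1 := by
    rw [← map_one φ]
    exact congrArg φ (Subtype.ext (div_self hb'))
  have hform : ∀ i j, D.form i j X = φ (D.form i j fun l => ⟨x l / x b, mem_x D x w l b hb'⟩) := by
    intro i j
    unfold Arr.form
    rw [map_sum]
    exact Finset.sum_congr rfl fun l _ => by rw [map_mul, φ.commutes]
  have hPW : D.Point X W := by
    refine ⟨fun h0 => ?_, fun i => ?_⟩
    · have h1 := congrFun h0 b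
      rw [hXb] at h1
      exact one_ne_zero h1
    · simp only [hform]
      simp only [← map_pow, ← map_prod]
      rw [hW]
      simp only [← map_pow]
      refine congrArg φ (Subtype.ext ?_)
      have h1 := norm_eq D hD hP b i
      rw [SubmonoidClass.coe_pow, IntermediateField.coe_prod]
      refine h1.trans (Finset.prod_congr rfl fun j _ => ?_)
      rw [SubmonoidClass.coe_pow]
      congr 1
      unfold Arr.form
      rw [IntermediateField.coe_sum]
      rfl
  rcases ruled s_des s_rkx D hD F X W hPW with h1 | ⟨c, a, h1⟩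
  · intro i
    have h2 : (⟨w i / x b ^ D.wt i, mem_w D x w i b hb'⟩ : D.residue x w) = 0 :=
      (map_eq_zero φ).1 (h1 i)
    have h3 : w i / x b ^ D.wt i = 0 := congrArg Subtype.val h2
    rcases div_eq_zero_iff.1 h3 with h4 | h4
    · exact h4
    · exact absurd h4 (pow_ne_zero _ hb')
  · exfalso
    have hX' : ∀ l, X l = RatFunc.C (a l / a b) := by
      intro l
      have h2 : c * RatFunc.C (a b) = 1 := by rw [← h1 b, hXb]
      have h3 : RatFunc.C (a b) ≠ (0 : RatFunc F) := right_ne_zero_of_mul_eq_one h2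
      rw [h1 l, map_div₀, eq_div_iff h3]
      calc c * RatFunc.C (a l) * RatFunc.C (a b) = (c * RatFunc.C (a b)) * RatFunc.C (a l) := by ring
        _ = RatFunc.C (a l) := by rw [h2, one_mul]
    have hW' : ∀ i, ∃ v, W i = RatFunc.C v := by
      intro i
      apply in_const s_des
      have h2 : ∀ j, ∃ v, D.form i j X = RatFunc.C v := by
        intro j
        refine ⟨∑ l, algebraMap k F (D.ℓ i j l) * (a l / a b), ?_⟩
        unfold Arr.form
        rw [map_sum]
        exact Finset.sum_congr rfl fun l _ => by rw [map_mul, hX', algMap_rat]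
      choose v hv using h2
      have h3 : W i ^ D.m i = algebraMap F (RatFunc F) (∏ j, v j ^ D.e i j) := by
        rw [hPW.eq, RatFunc.algebraMap_eq_C, map_prod]
        exact Finset.prod_congr rfl fun j _ => by rw [hv, map_pow]
      have h4 : IsAlgebraic F (W i ^ D.m i) := by
        rw [h3]
        exact isAlgebraic_algebraMap _
      exact IsAlgebraic.of_pow (by have := (hD.num i).m_pos; omega) h4
    refine absurd (adj_in _ φ ?_ y) fun ⟨c, hc⟩ => hy c hc
    have hxx : ∀ a' b' (h' : x b' ≠ 0), ∃ c, φ ⟨x a' / x b', mem_x D x w a' b' h'⟩ = RatFunc.C c := by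
      intro a' b' h'
      refine ⟨(a a' / a b) / (a b' / a b), ?_⟩
      rw [map_div₀, ← hX', ← hX', hX, ← map_div₀]
      refine congrArg φ (Subtype.ext ?_)
      rw [IntermediateField.coe_div]
      field_simp
    rintro s (⟨a', b', h', rfl⟩ | ⟨i, b', h', rfl⟩)
    · exact hxx a' b' h'
    · obtain ⟨v, hv⟩ := hW' i
      obtain ⟨u, hu⟩ := hxx b' b hb'
      refine ⟨v / u ^ D.wt i, ?_⟩
      rw [map_div₀, map_pow, ← hv, ← hu, hW, ← map_pow, ← map_div₀]
      refine congrArg φ (Subtype.ext ?_)
      rw [IntermediateField.coe_div, SubmonoidClass.coe_pow, div_pow]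
      have h5 : x b ^ D.wt i ≠ 0 := pow_ne_zero _ hb'
      have h6 : x b' ^ D.wt i ≠ 0 := pow_ne_zero _ h'
      field_simp

/-- unirational varieties -/
theorem unirat [CharZero k] (hD : D.Good) {x : Fin (n + 1) → K} {w : Fin r → K}
    (hP : D.Point x w) (hU : Unirational k K) : (∀ i, w i = 0) ∨ Const k x := by
  obtain ⟨m, ⟨φ⟩⟩ := hU
  rcases s_uru k (D.residue x w) ⟨m, ⟨φ.comp (D.residue x w).val⟩⟩ with h | h
  · right
    obtain ⟨b, hb⟩ := Function.ne_iff.1 hP.ne
    have hb' : x b ≠ 0 := hb
    choose a ha using fun l => h ⟨x l / x b, mem_x D x w l b hb'⟩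
    refine ⟨x b, a, fun l => ?_⟩
    have h1 : x l / x b = algebraMap k K (a l) := congrArg Subtype.val (ha l)
    rw [← h1, mul_div_cancel₀ _ hb']
  · exact Or.inl (zero_of_uniruled D hD hP h)

theorem coords_le (x : Fin (n + 1) → K) (w : Fin r → K) : coords k x ≤ D.residue x w := by
  unfold coords
  rw [IntermediateField.adjoin_le_iff]
  rintro z ⟨a, b, hb, rfl⟩
  exact mem_x D x w a b hb

/-- uniruled varieties, generically finite over their image -/
theorem zero_of_ruled [CharZero k] (hD : D.Good) {x : Fin (n + 1) → K} {w : Fin r → K}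
    (hP : D.Point x w) (halg : Algebra.IsAlgebraic (coords k x) K) (hU : Uniruled k K) :
    ∀ i, w i = 0 := by
  obtain ⟨F, _, _, φ, y, hy⟩ := hU
  by_cases h : ∃ e : D.residue x w, ∀ c : F, φ e ≠ RatFunc.C c
  · obtain ⟨e, he⟩ := h
    exact zero_of_uniruled D hD hP ⟨F, inferInstance, inferInstance,
      φ.comp (D.residue x w).val, e, he⟩
  · exfalso
    push Not at h
    have h1 : ∀ e : coords k x, ∃ c : F, φ e = RatFunc.C c := fun e => h ⟨e, coords_le D x w e.2⟩
    choose g hg using h1
    have hinj : Function.Injective (RatFunc.C : F →+* RatFunc F) := by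
      rw [← RatFunc.algebraMap_eq_C]
      exact (algebraMap F (RatFunc F)).injective
    let g' : coords k x →+* F :=
      { toFun := g
        map_one' := hinj (by rw [← hg, map_one]; exact map_one φ)
        map_mul' := fun a b => hinj (by rw [map_mul, ← hg, ← hg, ← hg, ← map_mul]; rfl)
        map_zero' := hinj (by rw [← hg, map_zero]; exact map_zero φ)
        map_add' := fun a b => hinj (by rw [map_add, ← hg, ← hg, ← hg, ← map_add]; rfl) }
    have h2 : IsAlgebraic F ((φ : K →+* RatFunc F) y) := by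
      refine IsAlgebraic.ringHom_of_comp_eq (f := g') (g := (φ : K →+* RatFunc F))
        (halg.isAlgebraic y) g'.injective ?_
      ext e
      rw [RingHom.comp_apply, RingHom.comp_apply, RatFunc.algebraMap_eq_C]
      exact (hg e).symm
    obtain ⟨c, hc⟩ := in_const s_des _ h2
    exact hy c hc

/-- the linear subspace -/
theorem exists_lin (hD : D.Good) {x : Fin (n + 1) → K} {w : Fin r → K} (hP : D.Point x w)
    (hw : ∀ i, w i = 0) {c : ℕ} (hc : D.Codim c) :
    ∃ (p : ℕ) (B : Fin (p + 1) → Fin (n + 1) → k) (f : Fin (p + 1) → K), p + 1 ≤ c ∧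
      LinearIndependent k B ∧ ∀ l, x l = ∑ j, algebraMap k K (B j l) * f j := by
  have h1 : ∀ i, ∃ j, D.form i j x = 0 := by
    intro i
    have h2 := hP.eq i
    rw [hw i, zero_pow (by have := (hD.num i).m_pos; omega)] at h2
    obtain ⟨j, -, hj⟩ := Finset.prod_eq_zero_iff.1 h2.symm
    exact ⟨j, pow_eq_zero_iff (by have := hD.pos i j; omega) |>.1 hj⟩
  choose σ hσ using h1
  obtain ⟨p, B, f, h2, h3, -, h4⟩ := s_sub k K n r c (fun i => D.ℓ i (σ i)) x hP.ne (hc σ) hσ
  exact ⟨p, B, f, h2, h3, h4⟩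

/-- the function field of a closed subvariety is algebraic over that of its image -/
theorem alg_of_top (hD : D.Good) {x : Fin (n + 1) → K} {w : Fin r → K} (hP : D.Point x w)
    (ht : D.residue x w = ⊤) : Algebra.IsAlgebraic (coords k x) K := by
  have h1 : D.residue x w ≤
      (algebraicClosure (coords k x) K).restrictScalars k := by
    unfold Arr.residue
    rw [IntermediateField.adjoin_le_iff]
    have hc : ∀ z ∈ coords k x, z ∈ (algebraicClosure (coords k x) K).restrictScalars k := by
      intro z hz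
      exact mem_algebraicClosure_iff'.2 (isIntegral_algebraMap (x := (⟨z, hz⟩ : coords k x)))
    rintro z (⟨a, b, hb, rfl⟩ | ⟨i, b, hb, rfl⟩)
    · exact hc _ (IntermediateField.subset_adjoin k _ ⟨a, b, hb, rfl⟩)
    · have h2 := norm_eq D hD hP b i
      have h3 : (∏ j, D.form i j (fun l => x l / x b) ^ D.e i j) ∈ coords k x := by
        refine prod_mem fun j _ => pow_mem ?_ _
        unfold Arr.form
        refine sum_mem fun l _ => mul_mem ((coords k x).algebraMap_mem _) ?_
        exact IntermediateField.subset_adjoin k _ ⟨l, b, hb, rfl⟩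
      rw [← h2] at h3
      have h4 : IsAlgebraic (coords k x) ((w i / x b ^ D.wt i) ^ D.m i) :=
        isAlgebraic_algebraMap (⟨_, h3⟩ : coords k x)
      have h5 := IsAlgebraic.of_pow (by have := (hD.num i).m_pos; omega) h4
      exact mem_algebraicClosure_iff'.2 h5.isIntegral
  refine ⟨fun y => ?_⟩
  have h2 : y ∈ D.residue x w := by rw [ht]; trivial
  exact (mem_algebraicClosure_iff'.1 (h1 h2)).isAlgebraic

end

end Pool.Agent.P8H3.RA
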