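import Pool.Agent.P8H3.RA.Core
import Pool.Agent.P8H3.RA.Defs

/-!
# Points over `F(s)`
-/

set_option autoImplicit false

namespace Pool.Agent.P8H3.RA

open FF
open Pool.Agent.P8H50.NK (lk)
open Pool.Agent.W602.GT (coords)

variable {k : Type} [Field k] {n r : ℕ}

theorem Arr.Good.num {D : Arr k n r} (hD : D.Good) (i : Fin r) :
    Num n (D.q i) (D.t i) (D.m i) (D.e i) :=
  ⟨hD.pos i, hD.dvd i, hD.dim i, hD.small i⟩

theorem algMap_rat {F : Type} [Field F] [Algebra k F] (b : k) :
    algebraMap k (RatFunc F) b = RatFunc.C (algebraMap k F b) := by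
  rw [IsScalarTower.algebraMap_apply k F (RatFunc F), RatFunc.algebraMap_eq_C]

/-- the field of constants is algebraically closed in `F(s)` -/
theorem in_const (hDES : S_DES) {F : Type} [Field F] (u : RatFunc F) (hu : IsAlgebraic F u) :
    ∃ c, u = RatFunc.C c := by
  obtain ⟨ψ, hψ, hd⟩ := hDES F (AlgebraicClosure F)
  have h1 : IsAlgebraic (AlgebraicClosure F) (ψ u) := by
    obtain ⟨p, hp, h⟩ := hu
    refine ⟨p.map (algebraMap F (AlgebraicClosure F)), ?_, ?_⟩
    · rwa [Ne, Polynomial.map_eq_zero_iff (algebraMap F (AlgebraicClosure F)).injective]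
    · rw [Polynomial.aeval_def, Polynomial.eval₂_map]
      have h2 : (algebraMap (AlgebraicClosure F) (RatFunc (AlgebraicClosure F))).comp
          (algebraMap F (AlgebraicClosure F)) = ψ.comp (algebraMap F (RatFunc F)) := by
        ext c
        rw [RingHom.comp_apply, RingHom.comp_apply, RatFunc.algebraMap_eq_C,
          RatFunc.algebraMap_eq_C, hψ]
      rw [h2, ← Polynomial.hom_eval₂, ← Polynomial.aeval_def, h, map_zero]
  have h2 : ψ u ∈ (⊥ : IntermediateField (AlgebraicClosure F) (RatFunc (AlgebraicClosure F))) := by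
    have := IntermediateField.isAlgebraic_adjoin_simple (K := AlgebraicClosure F)
        (x := ψ u) h1.isIntegral
    rw [← IntermediateField.eq_bot_of_isAlgClosed_of_isAlgebraic
      (IntermediateField.adjoin (AlgebraicClosure F) {ψ u})]
    exact IntermediateField.mem_adjoin_simple_self _ _
  obtain ⟨b, hb⟩ := IntermediateField.mem_bot.1 h2
  have h3 : ψ u = RatFunc.C b := by
    rw [← RatFunc.algebraMap_eq_C]
    exact hb.symm
  exact hd u b h3

/-- points over `F(s)` -/
theorem ruled (hDES : S_DES) (hRKX : S_RKX) [CharZero k] (D : Arr k n r) (hD : D.Good) (F : Type)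
    [Field F] [Algebra k F] (x : Fin (n + 1) → RatFunc F) (w : Fin r → RatFunc F)
    (hP : D.Point x w) :
    (∀ i, w i = 0) ∨ ∃ (c : RatFunc F) (a : Fin (n + 1) → F), ∀ l, x l = c * RatFunc.C (a l) := by
  by_cases hw : ∀ i, w i = 0
  · exact Or.inl hw
  right
  push Not at hw
  obtain ⟨i, hi⟩ := hw
  have : CharZero F := charZero_of_injective_algebraMap (algebraMap k F).injective
  let G := AlgebraicClosure F
  have : CharZero G := charZero_of_injective_algebraMap (algebraMap F G).injective
  obtain ⟨ψ, hψ, hd⟩ := hDES F G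
  have hform : ∀ j, ψ (D.form i j x) =
      lk (fun l => algebraMap k G (D.ℓ i j l)) (fun l => ψ (x l)) := by
    intro j
    unfold Arr.form lk
    rw [map_sum]
    refine Finset.sum_congr rfl fun l _ => ?_
    rw [map_mul, algMap_rat, hψ, RatFunc.algebraMap_eq_C, ← IsScalarTower.algebraMap_apply k F G]
  have hx : (fun l => ψ (x l)) ≠ 0 := by
    intro h0
    apply hP.ne
    funext l
    have := congrFun h0 l
    exact (map_eq_zero ψ).1 this
  rcases core (hD.num i) G (fun j l => algebraMap k G (D.ℓ i j l))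
      (fun A hA => hRKX k G (n + 1) (D.q i) (D.ℓ i) A (hD.mult i A hA)) (fun l => ψ (x l)) hx
      (ψ (w i)) (by
        rw [← map_pow, hP.eq, map_prod]
        refine Finset.prod_congr rfl fun j _ => ?_
        rw [map_pow, hform]) with h1 | ⟨c, a, h1⟩
  · exact absurd ((map_eq_zero ψ).1 h1) hi
  · obtain ⟨b, hb⟩ := Function.ne_iff.1 hP.ne
    have hb' : x b ≠ 0 := hb
    have h2 : ∀ l, ∃ f, x l / x b = RatFunc.C f := by
      intro l
      refine hd (x l / x b) (a l / a b) ?_
      have hcb : c * algebraMap G (RatFunc G) (a b) ≠ 0 := by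
        rw [← h1 b]
        exact (map_ne_zero ψ).2 hb'
      rw [map_div₀, h1, h1, RatFunc.algebraMap_eq_C, map_div₀]
      have hc : c ≠ 0 := left_ne_zero_of_mul hcb
      rw [mul_div_mul_left _ _ hc]
    choose f hf using h2
    refine ⟨x b, f, fun l => ?_⟩
    rw [← hf l, mul_div_cancel₀ _ hb']

end Pool.Agent.P8H3.RA
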